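import Pool.Agent.X331.PG.Fin
import Pool.Agent.H765R3.Peg.Conv
import Pool.Agent.H765R3.Peg.Angle

/-! Inscribed squares and chords with given central angles. -/

set_option autoImplicit false
open Complex Set Topology Metric

namespace Pool.Agent.X331.PG

open Pool.Agent.H763R2 Pool.Agent.H763R2.An
open Pool.Agent.H763R2.Dm (NoSq)
open Pool.Agent.H765R3.Peg (per_int2 near_diag ray seg_out isWc_zero)

variable {c : ℝ → ℂ}

/-- the square `X` of the distance of a point from the centre is incompatible with the position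
`σ` of the point, if `m` and `M` are the bounds of the distances for the points of the curve:
`σ = 1` strictly inside, `σ = -1` strictly outside, `σ = 0` on the curve -/
def Excl (m M : ℝ) (σ : SignType) (X : ℝ) : Prop :=
  (σ = 1 → M ^ 2 ≤ X) ∧ (σ = -1 → X ≤ m ^ 2) ∧ (σ = 0 → X < m ^ 2 ∨ M ^ 2 < X)

theorem not_excl (L : Loop c) {r φ : ℝ → ℝ} (hφ : Continuous φ)
    (hφ1 : ∀ t, φ (t + 1) = φ t + 2 * Real.pi) (hr : ∀ t, 0 < r t)
    (hpol : ∀ t, c t = r t * exp (φ t * I)) {m M : ℝ} (hm : 0 ≤ m) (hmr : ∀ t, m ≤ r t)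
    (hrM : ∀ t, r t ≤ M) {z : ℂ} {ρ : ℝ} (hρ : 0 < ρ) (σ : SignType)
    (hz : mgc c z = ρ * (σ : ℝ)) : ¬ Excl m M σ (normSq z) := by
  have nr : ∀ t, ‖c t‖ = r t := fun t => by
    rw [hpol, norm_mul, norm_exp_ofReal_mul_I, mul_one, norm_real, Real.norm_of_nonneg (hr t).le]
  have h0 : ∀ t, c t ≠ 0 := fun t h => by
    have := nr t
    rw [h, norm_zero] at this
    exact (hr t).ne this
  have hpol' : ∀ t, c t = ‖c t‖ * exp (φ t * I) := fun t => by rw [nr]; exact hpol t
  have M0 : 0 < M := (hr 0).trans_le (hrM 0)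
  rw [normSq_eq_norm_sq]
  intro h
  rcases SignType.trichotomy σ with hs | hs | hs
  · -- outside
    have h2 := h.2.1 hs
    rw [hs] at hz
    have hneg : mgc c z < 0 := by rw [hz]; simpa using hρ
    obtain ⟨s, s0, s1, t, ht⟩ := seg_out L hφ hφ1 h0 hpol' (z := z) hneg.le
    have hzn : z ∉ range c := not_mem_of_ne L hneg.ne
    have s1' : s < 1 := by
      rcases s1.lt_or_eq with h3 | h3
      · exact h3
      · exfalso; apply hzn; refine ⟨t, ?_⟩; rw [ht, h3]; simp
    have z0 : z ≠ 0 := by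
      intro h3
      apply h0 t
      rw [ht, h3, mul_zero]
    have e : r t = s * ‖z‖ := by
      rw [← nr t, ht, norm_mul, norm_real, Real.norm_of_nonneg s0.le]
    have hzpos : 0 < ‖z‖ := norm_pos_iff.2 z0
    have h4 := hmr t
    have h5 : m < ‖z‖ := by nlinarith
    nlinarith
  · -- on the curve
    have h2 := h.2.2 hs
    rw [hs] at hz
    have hz0 : mgc c z = 0 := by rw [hz]; simp
    rw [(mgc_sg L).zero L] at hz0
    obtain ⟨t, ht⟩ := hz0
    have e := nr t
    rw [ht] at e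
    rw [e] at h2
    have h4 := hmr t
    have h5 := hrM t
    have h6 := hr t
    rcases h2 with h2 | h2 <;> nlinarith
  · -- inside
    have h2 := h.1 hs
    rw [hs] at hz
    have hpos : 0 < mgc c z := by rw [hz]; simpa using hρ
    by_cases z0 : z = 0
    · rw [z0, norm_zero] at h2
      nlinarith
    · obtain ⟨s, s0, t, ht⟩ := ray_pos L z0 hpos
      have e : r t = (1 + s) * ‖z‖ := by
        rw [← nr t, ht, show z + s * z = ((1 + s : ℝ) : ℂ) * z by push_cast; ring, norm_mul,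
          norm_real, Real.norm_of_nonneg (by linarith)]
      have hzpos : 0 < ‖z‖ := norm_pos_iff.2 z0
      have h5 := hrM t
      have h6 : ‖z‖ < M := by nlinarith
      nlinarith

theorem angle_crit (L : Loop c) (J : Inj c) {r φ : ℝ → ℝ} (hφ : Continuous φ)
    (hφ1 : ∀ t, φ (t + 1) = φ t + 2 * Real.pi) (hr : ∀ t, 0 < r t)
    (hpol : ∀ t, c t = r t * exp (φ t * I)) {m M : ℝ} (hm : 0 ≤ m) (hmr : ∀ t, m ≤ r t)
    (hrM : ∀ t, r t ≤ M) (Θ : ℝ → ℝ → ℝ) (hΘ : Continuous fun p : ℝ × ℝ => Θ p.1 p.2)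
    (hΘ1 : ∀ x y, Θ (x + 1) (y + 1) = Θ x y) (hΘ0 : ∀ x, 0 < Θ x x)
    (hΘ2 : ∀ x, Θ x (x + 1) < 2 * Real.pi) (σ τ : SignType) (hστ : σ ≠ 0 ∨ τ ≠ 0)
    (H : ∀ x y, x < y → y < x + 1 → φ y = φ x + Θ x y →
      Excl m M σ (2 * r x ^ 2 + r y ^ 2 -
        2 * r x * r y * (Real.cos (Θ x y) + Real.sin (Θ x y))) ∨
      Excl m M τ (2 * r y ^ 2 + r x ^ 2 -
        2 * r y * r x * (Real.cos (Θ x y) + Real.sin (Θ x y)))) : ¬ NoSq (range c) := by
  intro nosq
  have he : ((σ : ℝ) : ℂ) + ((τ : ℝ) : ℂ) * I ≠ 0 := by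
    intro h
    have h1 := congrArg Complex.re h
    have h2 := congrArg Complex.im h
    simp only [add_re, ofReal_re, mul_re, I_re, mul_zero, ofReal_im, I_im, mul_one, sub_self,
      add_zero, zero_re, add_im, mul_im, zero_add, zero_im] at h1 h2
    have cast0 : ∀ s : SignType, (s : ℝ) = 0 → s = 0 := by
      intro s hs
      rcases SignType.trichotomy s with h | h | h
      · rw [h] at hs; norm_num at hs
      · exact h
      · rw [h] at hs; norm_num at hs
    rcases hστ with h3 | h3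
    · exact h3 (cast0 σ h1)
    · exact h3 (cast0 τ h2)
  obtain ⟨x, y, ρ, hx, hy, hg, hρ, e1, e2⟩ := ray_gauge L J nosq
    (G := fun p => φ p.2 - φ p.1 - Θ p.1 p.2)
    (by
      have h1 : Continuous fun p : ℝ × ℝ => φ p.2 - φ p.1 := by fun_prop
      exact h1.sub hΘ)
    (fun x y => by simp only [hφ1, hΘ1]; ring)
    (fun x => by simp only; linarith [hΘ0 x]) (fun x => by simp only [hφ1]; linarith [hΘ2 x]) he
  simp only at hg
  simp only [add_re, ofReal_re, mul_re, I_re, mul_zero, ofReal_im, I_im, mul_one, sub_self,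
      add_zero, add_im, mul_im, zero_add] at e1 e2
  have hang : φ y = φ x + Θ x y := by linarith
  have n1 := not_excl L hφ hφ1 hr hpol hm hmr hrM hρ σ e1
  have n2 := not_excl L hφ hφ1 hr hpol hm hmr hrM hρ τ e2
  have d1 : normSq (DD c x y) = 2 * r x ^ 2 + r y ^ 2 -
        2 * r x * r y * (Real.cos (Θ x y) + Real.sin (Θ x y)) := by
    have := normSq_D (r x) (r y) (φ x) (Θ x y)
    rw [← hang] at this
    unfold DD Sq.Dv
    rw [hpol x, hpol y, this]; rfl
  have d2 : normSq (CC c x y) = 2 * r y ^ 2 + r x ^ 2 -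
        2 * r y * r x * (Real.cos (Θ x y) + Real.sin (Θ x y)) := by
    have := normSq_E (r x) (r y) (φ x) (Θ x y)
    rw [← hang] at this
    unfold CC Sq.Cv
    rw [hpol x, hpol y, this]; rfl
  rw [d1] at n1
  rw [d2] at n2
  rcases H x y hx hy hang with h | h
  · exact n1 h
  · exact n2 h

end Pool.Agent.X331.PG
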