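import Pool.Agent.X331.PG.Ray
import Pool.Agent.H765R3.Peg.Angle

/-! Metric consequences of the gauge principle. -/

set_option autoImplicit false
open Complex Set Topology Metric

namespace Pool.Agent.X331.PG

open Pool.Agent.H763R2 Pool.Agent.H763R2.An
open Pool.Agent.H763R2.Dm (NoSq)
open Pool.Agent.H765R3.Peg (per_int2 near_diag ray seg_out)

variable {c : ℝ → ℂ}

theorem not_mem_of_ne (L : Loop c) {z : ℂ} (hz : mgc c z ≠ 0) : z ∉ range c := by
  intro h
  exact hz (((mgc_sg L).zero L).2 h)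

/-- the point on the ray is beyond a strictly interior point -/
theorem ray_pos (L : Loop c) {z v : ℂ} (hv : v ≠ 0) (hz : 0 < mgc c z) :
    ∃ s : ℝ, 0 < s ∧ ∃ t, c t = z + s * v := by
  obtain ⟨s, hs, t, ht⟩ := ray L hv hz.le
  rcases hs.lt_or_eq with h | h
  · exact ⟨s, h, t, ht⟩
  · exfalso
    refine not_mem_of_ne L hz.ne' ⟨t, ?_⟩
    rw [ht, ← h]; simp

/-- strictly interior points are in the interior of the convex hull -/
theorem mem_hull (L : Loop c) {z : ℂ} (hz : 0 < mgc c z) :
    z ∈ interior (convexHull ℝ (range c)) := by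
  rw [mem_interior]
  refine ⟨Metric.ball z (mgc c z), ?_, isOpen_ball, mem_ball_self hz⟩
  intro w hw
  rw [Metric.mem_ball, dist_eq_norm] at hw
  have h1 := (mgc_sg L).lip z w
  have h2 : 0 < mgc c w := by
    rw [abs_le] at h1
    have := h1.2
    rw [norm_sub_rev] at hw
    linarith
  obtain ⟨s, hs, t, ht⟩ := ray_pos L (v := 1) one_ne_zero h2
  obtain ⟨s', hs', t', ht'⟩ := ray_pos L (v := -1) (neg_ne_zero.2 one_ne_zero) h2
  have hconv := convex_convexHull ℝ (range c)
  have m1 : c t ∈ convexHull ℝ (range c) := subset_convexHull ℝ _ (mem_range_self t)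
  have m2 : c t' ∈ convexHull ℝ (range c) := subset_convexHull ℝ _ (mem_range_self t')
  have hss : 0 < s + s' := by linarith
  have hw2 : w = (s' / (s + s')) • c t + (s / (s + s')) • c t' := by
    rw [ht, ht', real_smul, real_smul]
    have : ((s : ℂ) + s') ≠ 0 := by exact_mod_cast hss.ne'
    push_cast
    field_simp
    ring
  rw [hw2]
  exact hconv m1 m2 (by positivity) (by positivity) (by field_simp; ring)

/-- Both other vertices of the square on the chord are strictly inside for some chord on the level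
set of the gauge. -/
theorem inside_pair (L : Loop c) (J : Inj c) (nosq : NoSq (range c)) {G : ℝ × ℝ → ℝ}
    (hG : Continuous G) (hper : ∀ x y, G (x + 1, y + 1) = G (x, y))
    (h0 : ∀ x, G (x, x) < 0) (h1 : ∀ x, 0 < G (x, x + 1)) :
    ∃ x y : ℝ, x < y ∧ y < x + 1 ∧ G (x, y) = 0 ∧ 0 < mgc c (DD c x y) ∧
      0 < mgc c (CC c x y) := by
  obtain ⟨x, y, ρ, hx, hy, hg, hρ, e1, e2⟩ := ray_gauge L J nosq hG hper h0 h1
    (e := 1 + I) (by intro h; have := congrArg Complex.re h; simp at this)
  refine ⟨x, y, hx, hy, hg, ?_, ?_⟩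
  · rw [e1]; simpa using hρ
  · rw [e2]; simpa using hρ

/-- A parameter in the fundamental interval. -/
theorem exists_param (L : Loop c) (x t : ℝ) : ∃ u, x ≤ u ∧ u < x + 1 ∧ c u = c t := by
  refine ⟨t - ⌊t - x⌋, ?_, ?_, ?_⟩
  · have := Int.floor_le (t - x); linarith
  · have := Int.lt_floor_add_one (t - x); linarith
  · have := L.per_int t (-⌊t - x⌋)
    rw [← this]; push_cast; ring_nf

/-- A closed curve of length at most `Λ` through `A`, `B`, and through points beyond the two other
vertices of the square on `A B`, satisfies `4 |A B| < Λ`. -/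
theorem length_bound (L : Loop c) {Λ : ℝ} (hΛ : ∀ s t, ‖c s - c t‖ ≤ Λ * |s - t|) {x y : ℝ}
    (hx : x < y) (hy : y < x + 1) (hne : c x ≠ c y) (hD : 0 < mgc c (DD c x y))
    (hC : 0 < mgc c (CC c x y)) : 4 * ‖c y - c x‖ < Λ := by
  set w := c y - c x with hw
  have w0 : w ≠ 0 := sub_ne_zero.2 hne.symm
  have hℓ : 0 < ‖w‖ := norm_pos_iff.2 w0
  have h11 : (I - 1) ≠ 0 := by intro h; have := congrArg Complex.im h; simp at this
  have h12 : (I + 1) ≠ 0 := by intro h; have := congrArg Complex.im h; simp at this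
  obtain ⟨s, hs, t, ht⟩ := ray_pos L (v := (I - 1) * w) (mul_ne_zero h11 w0) hD
  obtain ⟨s', hs', t', ht'⟩ := ray_pos L (v := (I + 1) * w) (mul_ne_zero h12 w0) hC
  obtain ⟨p, hp1, hp2, hp⟩ := exists_param L x t
  obtain ⟨q, hq1, hq2, hq⟩ := exists_param L x t'
  have eP : c p = c x + (I + s * (I - 1)) * w := by
    rw [hp, ht]; unfold DD Sq.Dv; rw [← hw]; ring
  have eQ : c q = c x + (1 + I + s' * (I + 1)) * w := by
    rw [hq, ht']; unfold CC Sq.Cv
    have : c y = c x + w := by rw [hw]; ring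
    rw [this]; ring
  have eB : c y = c x + w := by rw [hw]; ring
  -- norms
  have nrm : ∀ z : ℂ, ∀ r : ℝ, 0 ≤ r → r ^ 2 ≤ normSq z → r ≤ ‖z‖ := by
    intro z r hr h
    rw [← abs_of_nonneg hr, ← abs_norm, ← sq_le_sq, ← normSq_eq_norm_sq]
    exact h
  have nPA : ‖w‖ ≤ ‖c p - c x‖ := by
    rw [eP, show c x + (I + s * (I - 1)) * w - c x = (I + s * (I - 1)) * w by ring, norm_mul]
    have : 1 ≤ ‖I + s * (I - 1)‖ := by
      refine nrm _ 1 zero_le_one ?_
      rw [normSq_apply]; simp; nlinarith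
    nlinarith
  have nQB' : ‖w‖ < ‖c q - c y‖ := by
    rw [eQ, eB, show c x + (1 + I + s' * (I + 1)) * w - (c x + w) = (I + s' * (I + 1)) * w by
      ring, norm_mul]
    have : 1 + s' ≤ ‖I + s' * (I + 1)‖ := by
      refine nrm _ (1 + s') (by linarith) ?_
      rw [normSq_apply]; simp; nlinarith
    nlinarith
  have nPQ : ‖w‖ ≤ ‖c p - c q‖ := by
    rw [eP, eQ, show c x + (I + s * (I - 1)) * w - (c x + (1 + I + s' * (I + 1)) * w) =
      -((1 + s + s') + (s' - s) * I) * w by ring, norm_mul, norm_neg]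
    have : 1 ≤ ‖((1 : ℂ) + s + s') + (s' - s) * I‖ := by
      refine nrm _ 1 zero_le_one ?_
      rw [normSq_apply]; simp; nlinarith
    nlinarith
  have nPB : ‖w‖ ≤ ‖c p - c y‖ := by
    rw [eP, eB, show c x + (I + s * (I - 1)) * w - (c x + w) = ((1 + s) * (I - 1)) * w by ring,
      norm_mul]
    have : 1 ≤ ‖((1 : ℂ) + s) * (I - 1)‖ := by
      refine nrm _ 1 zero_le_one ?_
      rw [normSq_apply]; simp; nlinarith
    nlinarith
  have nQA : ‖w‖ ≤ ‖c q - c x‖ := by
    rw [eQ, show c x + (1 + I + s' * (I + 1)) * w - c x = ((1 + s') * (I + 1)) * w by ring,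
      norm_mul]
    have : 1 ≤ ‖((1 : ℂ) + s') * (I + 1)‖ := by
      refine nrm _ 1 zero_le_one ?_
      rw [normSq_apply]; simp; nlinarith
    nlinarith
  have nPB2 : ‖w‖ < ‖c p - c y‖ := by
    rw [eP, eB, show c x + (I + s * (I - 1)) * w - (c x + w) = ((1 + s) * (I - 1)) * w by ring,
      norm_mul]
    have : 1 + s ≤ ‖((1 : ℂ) + s) * (I - 1)‖ := by
      refine nrm _ (1 + s) (by linarith) ?_
      rw [normSq_apply]; simp; nlinarith
    nlinarith
  have nQA2 : ‖w‖ < ‖c q - c x‖ := by
    rw [eQ, show c x + (1 + I + s' * (I + 1)) * w - c x = ((1 + s') * (I + 1)) * w by ring,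
      norm_mul]
    have : 1 + s' ≤ ‖((1 : ℂ) + s') * (I + 1)‖ := by
      refine nrm _ (1 + s') (by linarith) ?_
      rw [normSq_apply]; simp; nlinarith
    nlinarith
  have nAB : ‖c y - c x‖ = ‖w‖ := by rw [hw]
  -- distances along the curve
  have D : ∀ u v : ℝ, u ≤ v → ‖c v - c u‖ ≤ Λ * (v - u) := by
    intro u v huv
    have := hΛ v u
    rwa [abs_of_nonneg (by linarith)] at this
  have D' : ∀ u v : ℝ, u ≤ v → ‖c u - c v‖ ≤ Λ * (v - u) := by
    intro u v huv
    rw [norm_sub_rev]; exact D u v huv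
  have E : ∀ u : ℝ, u ≤ x + 1 → ‖c u - c x‖ ≤ Λ * (x + 1 - u) := by
    intro u hu
    have := D' u (x + 1) hu
    rwa [L.per] at this
  rcases le_total p y with h1 | h1 <;> rcases le_total q y with h2 | h2
  · -- both between `x` and `y`
    have b1 := E y hy.le
    rcases le_total p q with h3 | h3
    · -- A P Q B
      have a1 := D x p hp1
      have a2 := D' p q h3
      have a3 := D' q y h2
      nlinarith
    · -- A Q P B
      have a1 := D x q hq1
      have a2 := D q p h3
      have a3 := D' p y h1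
      nlinarith
  · -- A P B Q
    have a1 := D x p hp1
    have a2 := D' p y h1
    have a3 := D y q h2
    have a4 := E q hq2.le
    nlinarith
  · -- A Q B P
    have a1 := D x q hq1
    have a2 := D' q y h2
    have a3 := D y p h1
    have a4 := E p hp2.le
    nlinarith
  · have b1 := D x y hx.le
    rcases le_total p q with h3 | h3
    · -- A B P Q
      have a1 := D y p h1
      have a2 := D' p q h3
      have a3 := E q hq2.le
      nlinarith
    · -- A B Q P
      have a1 := D y q h2
      have a2 := D q p h3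
      have a3 := E p hp2.le
      nlinarith

/-- A point of the curve at distance more than `√2 |A B|` from `B`. -/
theorem far_B (L : Loop c) {x y : ℝ} (hne : c x ≠ c y) (hD : 0 < mgc c (DD c x y)) :
    ∃ t, √2 * ‖c y - c x‖ < ‖c t - c y‖ := by
  set w := c y - c x with hw
  have w0 : w ≠ 0 := sub_ne_zero.2 hne.symm
  have hℓ : 0 < ‖w‖ := norm_pos_iff.2 w0
  have h11 : (I - 1) ≠ 0 := by intro h; have := congrArg Complex.im h; simp at this
  obtain ⟨s, hs, t, ht⟩ := ray_pos L (v := (I - 1) * w) (mul_ne_zero h11 w0) hD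
  refine ⟨t, ?_⟩
  have e : c t - c y = ((1 + s : ℝ) : ℂ) * (I - 1) * w := by
    rw [ht]; unfold DD Sq.Dv; rw [← hw]
    have : c y = c x + w := by rw [hw]; ring
    rw [this]; push_cast; ring
  have n1 : ‖(I - 1 : ℂ)‖ = √2 := by
    rw [norm_def, normSq_apply]; simp; norm_num
  rw [e, norm_mul, norm_mul, n1, norm_real, Real.norm_of_nonneg (by linarith)]
  have h2 : 0 < √2 := by positivity
  have : 0 < s * √2 * ‖w‖ := by positivity
  nlinarith

end Pool.Agent.X331.PG
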