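import Pool.Agent.X331.PG.Cor
import Pool.Agent.H765R3.Peg.Conv

/-! Inscribed squares from conditions on one family of chords. -/

set_option autoImplicit false
open Complex Set Topology Metric

namespace Pool.Agent.X331.PG

open Pool.Agent.H763R2 Pool.Agent.H763R2.An
open Pool.Agent.H763R2.Dm (NoSq)
open Pool.Agent.H765R3.Peg (per_int2 near_diag ray seg_out inj_of)

variable {c : ℝ → ℂ}

/-- diameter of the arc between the parameters `x` and `y` -/
noncomputable def darc (c : ℝ → ℂ) (x y : ℝ) : ℝ :=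
  sSup ((fun s : ℝ × ℝ => ‖c (x + s.1 * (y - x)) - c (x + s.2 * (y - x))‖) '' (Icc 0 1 ×ˢ Icc 0 1))

theorem darc_cont (hc : Continuous c) : Continuous fun p : ℝ × ℝ => darc c p.1 p.2 := by
  unfold darc
  exact (isCompact_Icc.prod isCompact_Icc).continuous_sSup (K := Icc (0:ℝ) 1 ×ˢ Icc (0:ℝ) 1)
    (f := fun (p : ℝ × ℝ) (s : ℝ × ℝ) =>
      ‖c (p.1 + s.1 * (p.2 - p.1)) - c (p.1 + s.2 * (p.2 - p.1))‖) (by
        have : Continuous fun (q : (ℝ × ℝ) × ℝ × ℝ) =>
          ‖c (q.1.1 + q.2.1 * (q.1.2 - q.1.1)) - c (q.1.1 + q.2.2 * (q.1.2 - q.1.1))‖ := by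
          fun_prop
        exact this)

theorem le_darc (hc : Continuous c) {x y s t : ℝ} (hs : s ∈ Icc x y) (ht : t ∈ Icc x y) :
    ‖c s - c t‖ ≤ darc c x y := by
  have hbd : BddAbove ((fun s : ℝ × ℝ =>
      ‖c (x + s.1 * (y - x)) - c (x + s.2 * (y - x))‖) '' (Icc 0 1 ×ˢ Icc 0 1)) :=
    (isCompact_Icc.prod isCompact_Icc).bddAbove_image (by fun_prop)
  have par : ∀ s ∈ Icc x y, ∃ a ∈ Icc (0:ℝ) 1, x + a * (y - x) = s := by
    intro s hs
    rcases (hs.1.trans hs.2).lt_or_eq with h | h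
    · refine ⟨(s - x) / (y - x), ⟨div_nonneg (by linarith [hs.1]) (by linarith),
        (div_le_one (by linarith)).2 (by linarith [hs.2])⟩, ?_⟩
      rw [div_mul_cancel₀ _ (by linarith : y - x ≠ 0)]; ring
    · refine ⟨0, ⟨le_rfl, zero_le_one⟩, ?_⟩
      have := hs.1; have := hs.2
      linarith
  obtain ⟨a, ha, ea⟩ := par s hs
  obtain ⟨b, hb, eb⟩ := par t ht
  refine le_csSup hbd ⟨(a, b), ⟨ha, hb⟩, ?_⟩
  simp only [ea, eb]

theorem darc_eq (hc : Continuous c) {x y : ℝ} (hxy : x ≤ y) :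
    darc c x y = Metric.diam (c '' Icc x y) := by
  apply le_antisymm
  · refine csSup_le ?_ ?_
    · exact ((nonempty_Icc.2 zero_le_one).prod (nonempty_Icc.2 zero_le_one)).image _
    · rintro _ ⟨⟨a, b⟩, ⟨ha, hb⟩, rfl⟩
      have hK : Bornology.IsBounded (c '' Icc x y) :=
        (isCompact_Icc.image hc).isBounded
      have mem : ∀ a ∈ Icc (0:ℝ) 1, x + a * (y - x) ∈ Icc x y := by
        intro a ha
        constructor
        · nlinarith [ha.1]
        · nlinarith [ha.2]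
      have := Metric.dist_le_diam_of_mem hK (mem_image_of_mem c (mem a ha))
        (mem_image_of_mem c (mem b hb))
      rwa [dist_eq_norm] at this
  · refine Metric.diam_le_of_forall_dist_le ?_ ?_
    · exact (norm_nonneg _).trans (le_darc hc (left_mem_Icc.2 hxy) (left_mem_Icc.2 hxy))
    · rintro _ ⟨s, hs, rfl⟩ _ ⟨t, ht, rfl⟩
      rw [dist_eq_norm]
      exact le_darc hc hs ht

theorem darc_self (x : ℝ) : darc c x x = 0 := by
  unfold darc
  have : (fun s : ℝ × ℝ => ‖c (x + s.1 * (x - x)) - c (x + s.2 * (x - x))‖) ''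
      (Icc (0:ℝ) 1 ×ˢ Icc (0:ℝ) 1) = {0} := by
    ext z
    simp only [sub_self, mul_zero, add_zero, norm_zero, mem_image, mem_singleton_iff]
    constructor
    · rintro ⟨_, _, h⟩; exact h.symm
    · intro h
      exact ⟨(0, 0), ⟨⟨le_rfl, zero_le_one⟩, ⟨le_rfl, zero_le_one⟩⟩, h.symm⟩
  rw [this, csSup_singleton]

theorem darc_per (L : Loop c) (x y : ℝ) : darc c (x + 1) (y + 1) = darc c x y := by
  unfold darc
  congr 1
  refine image_congr fun s _ => ?_
  rw [show x + 1 + s.1 * (y + 1 - (x + 1)) = x + s.1 * (y - x) + 1 by ring,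
    show x + 1 + s.2 * (y + 1 - (x + 1)) = x + s.2 * (y - x) + 1 by ring, L.per, L.per]

theorem darc_pos (L : Loop c) (J : Inj c) (x : ℝ) : 0 < darc c x (x + 1) := by
  have h1 := le_darc L.cont (x := x) (y := x + 1) (s := x) (t := x + 1 / 2)
    ⟨le_rfl, by linarith⟩ ⟨by linarith, by linarith⟩
  have h2 : 0 < ‖c x - c (x + 1 / 2)‖ :=
    norm_pos_iff.2 (sub_ne_zero.2 (J x _ (by linarith) (by linarith)))
  linarith

/-- equal diameters -/
theorem diam_crit (L : Loop c) (J : Inj c)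
    (H : ∀ x y, x < y → y < x + 1 →
      Metric.diam (c '' Icc x y) = Metric.diam (c '' Icc y (x + 1)) →
      Metric.diam (c '' Icc x y) ≤ √2 * ‖c y - c x‖) : ¬ NoSq (range c) := by
  intro nosq
  obtain ⟨x, y, hx, hy, hg, hD, hC⟩ := inside_pair L J nosq
    (G := fun p => darc c p.1 p.2 - darc c p.2 (p.1 + 1))
    (by
      have h := darc_cont L.cont
      have h' : Continuous fun p : ℝ × ℝ => darc c p.2 (p.1 + 1) :=
        h.comp (f := fun p : ℝ × ℝ => (p.2, p.1 + 1)) (by fun_prop)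
      exact h.sub h')
    (fun x y => by simp only [darc_per L])
    (fun x => by
      simp only [darc_self]
      linarith [darc_pos L J x])
    (fun x => by
      simp only
      rw [darc_self]
      linarith [darc_pos L J x])
  simp only at hg
  have e1 := darc_eq L.cont hx.le
  have e2 := darc_eq L.cont hy.le
  obtain ⟨t, ht⟩ := far_B L (J x y hx hy) hD
  obtain ⟨u, hu1, hu2, hu⟩ := exists_param L x t
  rw [← hu] at ht
  have h3 := H x y hx hy (by rw [← e1, ← e2]; linarith)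
  rw [← e1] at h3
  rcases le_total u y with h | h
  · have := le_darc L.cont (x := x) (y := y) (s := u) (t := y) ⟨hu1, h⟩ ⟨hx.le, le_rfl⟩
    linarith
  · have := le_darc L.cont (x := y) (y := x + 1) (s := u) (t := y) ⟨h, hu2.le⟩ ⟨le_rfl, hy.le⟩
    linarith

/-- signs of the two signed distances -/
theorem sign_pair (L : Loop c) (J : Inj c) (nosq : NoSq (range c)) {G : ℝ × ℝ → ℝ}
    (hG : Continuous G) (hper : ∀ x y, G (x + 1, y + 1) = G (x, y))
    (h0 : ∀ x, G (x, x) < 0) (h1 : ∀ x, 0 < G (x, x + 1)) (σ τ : ℝ) (hσ : σ ≠ 0) :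
    ∃ x y : ℝ, x < y ∧ y < x + 1 ∧ G (x, y) = 0 ∧ ∃ ρ : ℝ, 0 < ρ ∧ mgc c (DD c x y) = ρ * σ ∧
      mgc c (CC c x y) = ρ * τ := by
  obtain ⟨x, y, ρ, hx, hy, hg, hρ, e1, e2⟩ := ray_gauge L J nosq hG hper h0 h1
    (e := (σ : ℂ) + (τ : ℂ) * I) (by
      intro h
      have := congrArg Complex.re h
      simp at this
      exact hσ this)
  refine ⟨x, y, hx, hy, hg, ρ, hρ, ?_, ?_⟩
  · rw [e1]; simp
  · rw [e2]; simp

section angle

variable {r φ : ℝ → ℝ} {O : ℂ}

/-- squared distance of `D` from the centre -/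
noncomputable def dsq (a b θ : ℝ) : ℝ := 2 * a ^ 2 + b ^ 2 - 2 * a * b * (Real.cos θ + Real.sin θ)

theorem normSq_D (a b α θ : ℝ) :
    normSq ((a : ℂ) * exp (α * I) + I * ((b : ℂ) * exp (((α + θ : ℝ) : ℂ) * I) -
      (a : ℂ) * exp (α * I))) = dsq a b θ := by
  have e : (a : ℂ) * exp (α * I) + I * ((b : ℂ) * exp (((α + θ : ℝ) : ℂ) * I) -
      (a : ℂ) * exp (α * I)) = exp (α * I) * (((a - b * Real.sin θ : ℝ) : ℂ) +
        ((b * Real.cos θ - a : ℝ) : ℂ) * I) := by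
    rw [ofReal_add, add_mul, exp_add]
    rw [show exp ((θ : ℂ) * I) = (Real.cos θ : ℂ) + (Real.sin θ : ℂ) * I by
      rw [exp_mul_I, ofReal_cos, ofReal_sin]]
    push_cast
    linear_combination (exp (α * I) * (b : ℂ) * Complex.sin θ) * I_sq
  rw [e, normSq_mul]
  have : normSq (exp ((α : ℂ) * I)) = 1 := by
    rw [normSq_eq_norm_sq, norm_exp_ofReal_mul_I]; norm_num
  rw [this, one_mul, normSq_add_mul_I]
  unfold dsq
  nlinarith [Real.sin_sq_add_cos_sq θ]

theorem normSq_E (a b α θ : ℝ) :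
    normSq ((b : ℂ) * exp (((α + θ : ℝ) : ℂ) * I) + I * ((b : ℂ) * exp (((α + θ : ℝ) : ℂ) * I) -
      (a : ℂ) * exp (α * I))) = dsq b a θ := by
  have e : (b : ℂ) * exp (((α + θ : ℝ) : ℂ) * I) + I * ((b : ℂ) * exp (((α + θ : ℝ) : ℂ) * I) -
      (a : ℂ) * exp (α * I)) = exp (α * I) * (((b * (Real.cos θ - Real.sin θ) : ℝ) : ℂ) +
        ((b * (Real.cos θ + Real.sin θ) - a : ℝ) : ℂ) * I) := by
    rw [ofReal_add, add_mul, exp_add]
    rw [show exp ((θ : ℂ) * I) = (Real.cos θ : ℂ) + (Real.sin θ : ℂ) * I by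
      rw [exp_mul_I, ofReal_cos, ofReal_sin]]
    push_cast
    linear_combination (exp (α * I) * (b : ℂ) * Complex.sin θ) * I_sq
  rw [e, normSq_mul]
  have : normSq (exp ((α : ℂ) * I)) = 1 := by
    rw [normSq_eq_norm_sq, norm_exp_ofReal_mul_I]; norm_num
  rw [this, one_mul, normSq_add_mul_I]
  unfold dsq
  nlinarith [Real.sin_sq_add_cos_sq θ]

end angle

end Pool.Agent.X331.PG
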