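import Pool.Agent.H765R3.Peg.Gauge

/-! A gauge principle with directions for the chords of a Jordan curve without inscribed squares. -/

set_option autoImplicit false
open Complex Set Topology Metric

namespace Pool.Agent.X331.PG

open Pool.Agent.H763R2 Pool.Agent.H763R2.An
open Pool.Agent.H763R2.Dm (NoSq)
open Pool.Agent.H765R3.Peg (per_int2 near_diag)

variable {c : ℝ → ℂ}

/-- The gauge principle with directions. -/
theorem ray_gauge (L : Loop c) (J : Inj c) (nosq : NoSq (range c)) {G : ℝ × ℝ → ℝ}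
    (hG : Continuous G) (hper : ∀ x y, G (x + 1, y + 1) = G (x, y))
    (h0 : ∀ x, G (x, x) < 0) (h1 : ∀ x, 0 < G (x, x + 1)) {e : ℂ} (he : e ≠ 0) :
    ∃ x y ρ : ℝ, x < y ∧ y < x + 1 ∧ G (x, y) = 0 ∧ 0 < ρ ∧ mgc c (DD c x y) = ρ * e.re ∧
      mgc c (CC c x y) = ρ * e.im := by
  by_contra hcon
  have hM := (mgc_sg L).cont
  have cD := L.DD_cont
  have cC := L.CC_cont
  set F : ℝ × ℝ → ℂ := fun p => ((mgc c (DD c p.1 p.2) : ℝ) : ℂ) +
    ((mgc c (CC c p.1 p.2) : ℝ) : ℂ) * I with hF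
  have cF : Continuous F := by
    rw [hF]
    exact (continuous_ofReal.comp (hM.comp cD)).add
      ((continuous_ofReal.comp (hM.comp cC)).mul continuous_const)
  have F_re : ∀ p, (F p).re = mgc c (DD c p.1 p.2) := fun p => by simp [hF]
  have F_im : ∀ p, (F p).im = mgc c (CC c p.1 p.2) := fun p => by simp [hF]
  have pF : ∀ x y, F (x + 1, y + 1) = F (x, y) := fun x y => by
    simp only [hF, L.DD_per, L.CC_per]
  have nzf : ∀ x y, x < y → y < x + 1 → F (x, y) ≠ 0 := by
    intro x y hx hy hz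
    refine nz L J (mgc_sg L) nosq hx hy ⟨?_, ?_⟩
    · have := F_re (x, y); rw [hz, zero_re] at this; exact this.symm
    · have := F_im (x, y); rw [hz, zero_im] at this; exact this.symm
  have noray : ∀ x y ρ : ℝ, x < y → y < x + 1 → G (x, y) = 0 → 0 ≤ ρ → F (x, y) ≠ ρ * e := by
    intro x y ρ hx hy hg hρ hz
    rcases hρ.lt_or_eq with h | h
    · refine hcon ⟨x, y, ρ, hx, hy, hg, h, ?_, ?_⟩
      · rw [← F_re (x, y), hz]; simp
      · rw [← F_im (x, y), hz]; simp
    · rw [← h] at hz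
      exact nzf x y hx hy (by simpa using hz)
  -- the compact fundamental domain
  set Kc : Set (ℝ × ℝ) := {p | p.1 ∈ Icc (0:ℝ) 1 ∧ p.1 ≤ p.2 ∧ p.2 ≤ p.1 + 1} with hKc
  have cK : IsCompact Kc := by
    refine (isCompact_Icc (a := (0:ℝ)) (b := 1)).prod (isCompact_Icc (a := (0:ℝ)) (b := 2))
      |>.of_isClosed_subset ?_ ?_
    · exact (isClosed_Icc.preimage continuous_fst).inter
        ((isClosed_le continuous_fst continuous_snd).inter
          (isClosed_le continuous_snd (continuous_fst.add continuous_const)))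
    · rintro ⟨x, y⟩ ⟨⟨a1, a2⟩, a3, a4⟩
      simp only at a1 a2 a3 a4
      exact ⟨⟨a1, a2⟩, by simp; linarith, by simp; linarith⟩
  have cQ : Continuous fun p => F p / e := cF.div_const e
  set Z : Set (ℝ × ℝ) := Kc ∩ {p | (F p / e).im = 0 ∧ 0 ≤ (F p / e).re ∧ 0 ≤ G p} with hZ
  have cZ : IsCompact Z := cK.inter_right ((isClosed_eq (continuous_im.comp cQ)
    continuous_const).inter ((isClosed_le continuous_const (continuous_re.comp cQ)).inter
      (isClosed_le continuous_const hG)))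
  have pZ : ∀ p ∈ Z, 0 < G p := by
    rintro ⟨x, y⟩ ⟨⟨hx, hxy, hyx⟩, a1, a2, a3⟩
    simp only at hx hxy hyx
    rcases a3.lt_or_eq with h | h
    · exact h
    exfalso
    rcases hxy.lt_or_eq with h' | h'
    · rcases hyx.lt_or_eq with h'' | h''
      · refine noray x y _ h' h'' h.symm a2 ?_
        have h3 : F (x, y) / e = (((F (x, y) / e).re : ℝ) : ℂ) := by
          apply Complex.ext
          · simp
          · rw [a1]; simp
        rw [← h3]; field_simp
      · have := h1 x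
        rw [← h'', ← h] at this
        exact lt_irrefl _ this
    · have := h0 x
      rw [show ((x, x) : ℝ × ℝ) = (x, y) by rw [h'], ← h] at this
      exact lt_irrefl _ this
  obtain ⟨δ, hδ, hδZ⟩ : ∃ δ > 0, ∀ p ∈ Z, δ ≤ G p := by
    rcases Z.eq_empty_or_nonempty with h | h
    · exact ⟨1, one_pos, fun p hp => by rw [h] at hp; exact absurd hp (notMem_empty p)⟩
    · obtain ⟨p, hp, hmin⟩ := cZ.exists_isMinOn h hG.continuousOn
      exact ⟨G p, pZ p hp, fun q hq => hmin hq⟩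
  obtain ⟨Bd, hBd⟩ := cK.exists_bound_of_continuousOn cQ.continuousOn
  have hB0 : 0 ≤ Bd := (norm_nonneg _).trans (hBd (0, 0) ⟨⟨le_rfl, zero_le_one⟩, le_rfl, by simp⟩)
  set K : ℝ := (Bd + 1) / δ with hK
  have K0 : 0 < K := by positivity
  have hKδ : K * δ = Bd + 1 := by rw [hK]; field_simp
  set m : ℝ × ℝ → ℝ := fun p => K * max (G p) 0 with hm
  have cm : Continuous m := by fun_prop
  have pm : ∀ x y, m (x + 1, y + 1) = m (x, y) := fun x y => by simp only [hm, hper]
  set g : ℝ × ℝ → ℂ := fun p => F p - (m p : ℂ) * e with hg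
  have cg : Continuous g := by
    rw [hg]
    exact cF.sub ((continuous_ofReal.comp cm).mul continuous_const)
  have pg : ∀ x y, g (x + 1, y + 1) = g (x, y) := fun x y => by
    simp only [hg, pF, pm]
  have gz : ∀ x y, x < y → y < x + 1 → g (x, y) ≠ 0 := by
    intro x y hx hy hgz
    have e1 : F (x, y) = (m (x, y) : ℂ) * e := sub_eq_zero.1 hgz
    rcases le_or_gt (G (x, y)) 0 with h | h
    · have : m (x, y) = 0 := by simp only [hm]; rw [max_eq_right h, mul_zero]
      rw [this] at e1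
      exact nzf x y hx hy (by simpa using e1)
    · have hmv : m (x, y) = K * G (x, y) := by simp only [hm]; rw [max_eq_left h.le]
      have hPos : 0 ≤ K * G (x, y) := by positivity
      have e2 : F (x, y) / e = ((K * G (x, y) : ℝ) : ℂ) := by
        rw [e1, hmv, mul_div_assoc, div_self he, mul_one]
      have hxx : x + ((-⌊x⌋ : ℤ) : ℝ) = Int.fract x := by push_cast; rw [Int.fract]; ring
      have q3 := per_int2 hper x y (-⌊x⌋)
      have q4 : F (x + ((-⌊x⌋ : ℤ) : ℝ), y + ((-⌊x⌋ : ℤ) : ℝ)) = F (x, y) := by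
        have r1 := per_int2 (G := fun p => (F p).re) (fun x y => by simp only [pF]) x y (-⌊x⌋)
        have r2 := per_int2 (G := fun p => (F p).im) (fun x y => by simp only [pF]) x y (-⌊x⌋)
        exact Complex.ext r1 r2
      set P : ℝ × ℝ := (x + ((-⌊x⌋ : ℤ) : ℝ), y + ((-⌊x⌋ : ℤ) : ℝ)) with hP
      have hPK : P ∈ Kc := by
        refine ⟨?_, ?_, ?_⟩
        · show x + ((-⌊x⌋ : ℤ) : ℝ) ∈ Icc (0:ℝ) 1
          rw [hxx]; exact ⟨Int.fract_nonneg x, (Int.fract_lt_one x).le⟩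
        · show x + ((-⌊x⌋ : ℤ) : ℝ) ≤ y + ((-⌊x⌋ : ℤ) : ℝ); linarith
        · show y + ((-⌊x⌋ : ℤ) : ℝ) ≤ x + ((-⌊x⌋ : ℤ) : ℝ) + 1; linarith
      have hPZ : P ∈ Z := ⟨hPK, by rw [q4, e2, ofReal_im], by rw [q4, e2, ofReal_re]; exact hPos,
        by rw [q3]; exact h.le⟩
      have b1 := hδZ P hPZ
      have b2 := hBd P hPK
      rw [q4, e2, norm_real, Real.norm_of_nonneg hPos] at b2
      rw [q3] at b1
      have : K * δ ≤ K * G (x, y) := mul_le_mul_of_nonneg_left b1 K0.le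
      linarith
  -- lift
  have hne : UU.Nonempty := ⟨(0, 1/2), by norm_num [UU]⟩
  have : ContractibleSpace UU := UU_convex.contractibleSpace hne
  have : LocallyPathConnectedSpace UU := UU_open.locallyPathConnectedSpace
  obtain ⟨k, hk, hke⟩ := H777R2.exists_log (X := UU) (g := fun p => g p.1)
    (cg.comp continuous_subtype_val) (fun p => gz p.1.1 p.1.2 p.2.1 p.2.2)
  have hsh : ∀ p : UU, ((p.1.1 + 1, p.1.2 + 1) : ℝ × ℝ) ∈ UU := by
    rintro ⟨⟨x, y⟩, h1, h2⟩
    simp only at h1 h2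
    exact ⟨by simp; linarith, by simp; linarith⟩
  have hconst := H777R2.exp_const (X := UU)
    (k := fun p => k ⟨(p.1.1 + 1, p.1.2 + 1), hsh p⟩ - k p)
    ((hk.comp (by fun_prop)).sub hk) (c := 1) (fun p => by
      rw [exp_sub, hke, hke]
      simp only [pg]
      exact div_self (gz p.1.1 p.1.2 p.2.1 p.2.2))
  -- near the upper boundary
  have z1 : ∀ x, mgc c (DD c x (x + 1)) = 0 := fun x => by
    rw [(mgc_sg L).zero L]
    refine ⟨x, ?_⟩
    unfold DD Sq.Dv
    rw [L.per]; ring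
  have z2 : ∀ x, mgc c (CC c x (x + 1)) = 0 := fun x => by
    rw [(mgc_sg L).zero L]
    refine ⟨x, ?_⟩
    unfold CC Sq.Cv
    rw [L.per]; ring
  obtain ⟨η1, hη1, u1⟩ := near_diag (H := fun p => m p - (F p / e).re)
    (cm.sub (continuous_re.comp cQ))
    (fun x y => by simp only [pm, pF]) (e := 1) (s := -1) (fun x => by
      simp only [hF, z1, z2, hm]
      rw [max_eq_left (h1 x).le]
      simpa using mul_pos K0 (h1 x))
  obtain ⟨η3, hη3, u3⟩ := near_diag (H := fun p => - G p) hG.neg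
    (fun x y => by simp only [hper]) (e := 0) (s := 1) (fun x => by
      rw [add_zero]; have := h0 x; linarith)
  obtain ⟨η, hη, a1, a3, a4⟩ : ∃ η : ℝ, 0 < η ∧ η < η1 ∧ η < η3 ∧ η < 1 := by
    refine ⟨min η1 (min η3 1) / 2, by positivity, ?_, ?_, ?_⟩
    all_goals
      have h5 : 0 < min η1 (min η3 1) := by positivity
      have h6 := min_le_left η1 (min η3 1)
      have h7 := min_le_right η1 (min η3 1)
      have h10 := min_le_left η3 1
      have h11 := min_le_right η3 1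
      linarith
  -- constant increment is zero
  have mem1 : ∀ s : ℝ, ((s, s + 1 + -1 * η) : ℝ × ℝ) ∈ UU := fun s =>
    ⟨by simp only; linarith, by simp only; linarith⟩
  have inc0 : k ⟨(1, 1 + 1 + -1 * η), mem1 1⟩ - k ⟨(0, 0 + 1 + -1 * η), mem1 0⟩ = 0 := by
    have := H777R2.side (g := fun s : ℝ => g (s, s + 1 + -1 * η))
      (k := fun s : ℝ => k ⟨(s, s + 1 + -1 * η), mem1 s⟩) (cg.comp (by fun_prop))
      (hk.comp (by fun_prop)) (fun s => hke _) (c := -e) (fun s => by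
        have b1 := u1 η ⟨hη, a1⟩ s
        have e5 : (g (s, s + 1 + -1 * η) / -e).re =
            m (s, s + 1 + -1 * η) - (F (s, s + 1 + -1 * η) / e).re := by
          have : g (s, s + 1 + -1 * η) / -e =
              ((m (s, s + 1 + -1 * η) : ℝ) : ℂ) - F (s, s + 1 + -1 * η) / e := by
            simp only [hg]; field_simp; ring
          rw [this, sub_re, ofReal_re]
        rw [e5]; exact b1) 1 0
    rw [this]
    have e6 : g (1, 1 + 1 + -1 * η) = g (0, 0 + 1 + -1 * η) := by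
      have := pg 0 (0 + 1 + -1 * η)
      rw [← this]; congr 2 <;> ring
    rw [e6, sub_self]
  -- near the lower boundary
  obtain ⟨θ, n, A, ho⟩ := exists_odd L J nosq
  have mem2 : ∀ s : ℝ, ((s, s + 0 + 1 * η) : ℝ × ℝ) ∈ UU := fun s =>
    ⟨by simp only; linarith, by simp only; linarith⟩
  have hlow : ∀ s : ℝ, g (s, s + 0 + 1 * η) = F (s, s + 0 + 1 * η) := fun s => by
    have b3 := u3 η ⟨hη, a3⟩ s
    have : m (s, s + 0 + 1 * η) = 0 := by
      simp only [hm]; rw [max_eq_right (by linarith), mul_zero]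
    simp only [hg, this, ofReal_zero, zero_mul, sub_zero]
  have key : ∀ s : ℝ, exp ((((k ⟨(s, s + 0 + 1 * η), mem2 s⟩).im -
      θ s (s + 0 + 1 * η) : ℝ) : ℂ) * I) = (1 : ℂ) := by
    intro s
    obtain ⟨ρ, hρ, r1, r2⟩ := A.ex s (s + 0 + 1 * η) (mem2 s).1 (mem2 s).2
    have e1 := hke ⟨(s, s + 0 + 1 * η), mem2 s⟩
    simp only at e1
    rw [hlow s] at e1
    simp only [hF, r1, r2] at e1
    set κ := k ⟨(s, s + 0 + 1 * η), mem2 s⟩ with hκ
    set T := θ s (s + 0 + 1 * η) with hT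
    have e2 : ((ρ * Real.cos T : ℝ) : ℂ) + ((ρ * Real.sin T : ℝ) : ℂ) * I =
        (ρ : ℂ) * exp (((T : ℝ) : ℂ) * I) := by
      rw [exp_mul_I, ← ofReal_cos, ← ofReal_sin]
      push_cast
      ring
    rw [e2] at e1
    have hnorm : Real.exp κ.re = ρ := by
      have := congrArg norm e1
      rw [norm_exp, norm_mul, norm_exp_ofReal_mul_I, mul_one, norm_real,
        Real.norm_of_nonneg hρ.le] at this
      exact this
    have e3 : exp κ = (ρ : ℂ) * exp ((κ.im : ℂ) * I) := by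
      conv_lhs => rw [← re_add_im κ]
      rw [exp_add, ← ofReal_exp, hnorm]
    rw [e3] at e1
    have hρ' : (ρ : ℂ) ≠ 0 := by exact_mod_cast hρ.ne'
    have e4 : exp ((κ.im : ℂ) * I) = exp (((T : ℝ) : ℂ) * I) := mul_left_cancel₀ hρ' e1
    rw [ofReal_sub, sub_mul, exp_sub, e4, div_self (exp_ne_zero _)]
  have cθ : Continuous fun s : ℝ => θ s (s + 0 + 1 * η) :=
    A.path (p := fun s => (s, s + 0 + 1 * η)) (by fun_prop) mem2
  have ck : Continuous fun s : ℝ => k ⟨(s, s + 0 + 1 * η), mem2 s⟩ := hk.comp (by fun_prop)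
  have hc2 := H777R2.exp_const (X := ℝ)
    (k := fun s : ℝ => (((k ⟨(s, s + 0 + 1 * η), mem2 s⟩).im -
      θ s (s + 0 + 1 * η) : ℝ) : ℂ) * I)
    (by
      have h3 : Continuous fun s : ℝ => (k ⟨(s, s + 0 + 1 * η), mem2 s⟩).im :=
        continuous_im.comp ck
      exact (continuous_ofReal.comp (h3.sub cθ)).mul continuous_const)
    key 1 0
  have hc3 : (k ⟨(1, 1 + 0 + 1 * η), mem2 1⟩).im - θ 1 (1 + 0 + 1 * η) =
      (k ⟨(0, 0 + 0 + 1 * η), mem2 0⟩).im - θ 0 (0 + 0 + 1 * η) := by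
    have := congrArg Complex.im hc2
    simpa using this
  have hθ := A.per 0 (0 + 0 + 1 * η) (mem2 0).1 (mem2 0).2
  have e5 : θ 1 (1 + 0 + 1 * η) = θ (0 + 1) (0 + 0 + 1 * η + 1) := by congr 1 <;> ring
  rw [e5, hθ] at hc3
  -- compare the increments
  have hi1 := hconst ⟨(0, 0 + 0 + 1 * η), mem2 0⟩ ⟨(0, 0 + 1 + -1 * η), mem1 0⟩
  simp only at hi1
  have t1 : (⟨((0:ℝ) + 1, 0 + 1 + -1 * η + 1), hsh ⟨(0, 0 + 1 + -1 * η), mem1 0⟩⟩ : UU) =
      ⟨(1, 1 + 1 + -1 * η), mem1 1⟩ := by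
    apply Subtype.ext; simp only [Prod.mk.injEq]; constructor <;> ring
  have t2 : (⟨((0:ℝ) + 1, 0 + 0 + 1 * η + 1), hsh ⟨(0, 0 + 0 + 1 * η), mem2 0⟩⟩ : UU) =
      ⟨(1, 1 + 0 + 1 * η), mem2 1⟩ := by
    apply Subtype.ext; simp only [Prod.mk.injEq]; constructor <;> ring
  rw [t1, t2, inc0] at hi1
  have hi2 := congrArg Complex.im hi1
  rw [sub_im, zero_im] at hi2
  have hn : (n : ℝ) * (2 * Real.pi) = 0 := by linarith
  have hπ := Real.pi_pos
  have hn0 : (n : ℝ) = 0 := by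
    rcases mul_eq_zero.1 hn with h | h
    · exact h
    · linarith
  have : n = 0 := by exact_mod_cast hn0
  rw [this] at ho
  exact absurd ho (by decide)

end Pool.Agent.X331.PG
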